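import Pool.Agent.KS6_46.KEC.Final

/-!
# MP_cb6149_al: `κ`-existentially closed groups with few automorphisms, in all cardinals

A full (negative) answer to Q1 for every regular `κ` and every cardinal `λ = λ ^ κ`, for every
strong limit `λ > κ` of cofinality at least `κ`, and, under GCH, for every pair `κ < λ` for which a
`κ`-existentially closed group of cardinality `λ` exists at all.
-/

set_option autoImplicit false

open Cardinal Function

namespace Pool.Agent.Results.MP_cb6149_al.AllCardinals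

universe u

/-- The assignment `x` solves the set `S` of equations and inequations over `G`, coefficients being
read through `ι : G → H`. A member `(w, true)` of `S` is the equation `w = 1`, a member
`(w, false)` is the inequation `w ≠ 1`; here `w` is an element of the free product of `G` and the
free group on the set `X` of variables. -/
def Solves {G H X : Type u} [Group G] [Group H]
    (S : Set (Monoid.Coprod G (FreeGroup X) × Bool)) (ι : G →* H) (x : X → H) : Prop :=
  ∀ s ∈ S, (Monoid.Coprod.lift ι (FreeGroup.lift x) s.1 = 1 ↔ s.2 = true)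

/-- `G` is `κ`-existentially closed: every set of fewer than `κ` equations and inequations over `G`
that is solvable in some overgroup of `G` is solvable in `G`. -/
def IsExistentiallyClosed (κ : Cardinal.{u}) (G : Type u) [Group G] : Prop :=
  ∀ (X : Type u) (S : Set (Monoid.Coprod G (FreeGroup X) × Bool)), Cardinal.mk S < κ →
    (∃ (H : Type u) (_ : Group H) (ι : G →* H), Injective ι ∧ ∃ x : X → H, Solves S ι x) →
    ∃ x : X → G, Solves S (MonoidHom.id G) x

/-- `X` is a base of `G`: only the identity automorphism fixes all elements of `X`. -/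
def IsBase {G : Type u} [Group G] (X : Set G) : Prop :=
  ∀ σ : MulAut G, (∀ x ∈ X, σ x = x) → σ = 1

/-- There is a `κ`-existentially closed group of cardinality `lam`. -/
def ExistsEC (κ lam : Cardinal.{u}) : Prop :=
  ∃ (G : Type u) (_ : Group G), IsExistentiallyClosed κ G ∧ Cardinal.mk G = lam

/-- There is a `κ`-existentially closed group of cardinality `lam` with exactly `lam`
automorphisms, and it may be chosen to contain a copy of any given group `W` of cardinality at
most `lam`. -/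
def ExistsFew (κ lam : Cardinal.{u}) : Prop :=
  ∀ (W : Type u) [Group W], Cardinal.mk W ≤ lam →
    ∃ (G : Type u) (_ : Group G), IsExistentiallyClosed κ G ∧ Cardinal.mk G = lam ∧
      (∃ f : W →* G, Injective f) ∧ Cardinal.mk (MulAut G) = lam

/-- **Theorem.** -/
theorem result :
    -- (1) necessary conditions on a `κ`-existentially closed group
    (∀ (κ : Cardinal.{u}) (G : Type u) [Group G], ℵ₀ ≤ κ → IsExistentiallyClosed κ G →
      Cardinal.mk G ^< κ = Cardinal.mk G ∧ κ ≤ (Cardinal.mk G).ord.cof ∧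
      Cardinal.mk G ≤ Cardinal.mk (MulAut G) ∧
      ∀ X : Set G, IsBase X → κ ≤ Cardinal.mk X) ∧
    -- (2) every admissible cardinal: a base of size `κ`, so at most `lam ^ κ` automorphisms
    (∀ κ lam : Cardinal.{u}, κ.IsRegular → κ ≤ lam → lam ^< κ = lam →
      ∀ (W : Type u) [Group W], Cardinal.mk W ≤ lam →
      ∃ (G : Type u) (_ : Group G), IsExistentiallyClosed κ G ∧ Cardinal.mk G = lam ∧
        (∃ f : W →* G, Injective f) ∧ (∃ X : Set G, Cardinal.mk X = κ ∧ IsBase X) ∧
        Cardinal.mk (MulAut G) ≤ lam ^ κ) ∧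
    -- (3) exactly `lam` automorphisms
    (∀ κ lam : Cardinal.{u}, κ.IsRegular → κ < lam →
      (lam ^ κ = lam ∨ (lam.IsStrongLimit ∧ κ ≤ lam.ord.cof) ∨
        (lam ^< κ = lam ∧ ∃ θ : Cardinal.{u}, θ.IsRegular ∧ κ ≤ θ ∧ θ ≤ lam ∧ lam.ord.cof < θ ∧
          ∀ μ < lam, μ ^ θ ≤ lam)) →
      ExistsFew κ lam) ∧
    -- (4) the complete picture under GCH
    ((∀ μ : Cardinal.{u}, ℵ₀ ≤ μ → 2 ^ μ = Order.succ μ) →
      ∀ κ lam : Cardinal.{u}, κ.IsRegular → κ < lam →
      (ExistsEC κ lam ↔ κ ≤ lam.ord.cof) ∧ (ExistsFew κ lam ↔ κ ≤ lam.ord.cof)) := by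
  have hpl : ∀ κ lam : Cardinal.{u}, lam ^< κ = lam → ∀ ρ < κ, lam ^ ρ ≤ lam :=
    fun κ lam h ρ hρ => (Cardinal.le_powerlt lam hρ).trans h.le
  refine ⟨?_, ?_, ?_, ?_⟩
  · intro κ G _ hκ hec
    have h0 := KS6_46.KEC.aleph0_le_of_ec hκ hec
    refine ⟨le_antisymm (Cardinal.powerlt_le.mpr fun ρ hρ =>
      KS6_46.KEC.power_le_of_ec hκ hec ρ hρ) ?_, KS6_46.KEC.cof_of_ec hκ hec,
      V1132.KEC.mk_le_mk_mulAut hκ hec, fun X hX => KS6_46.KEC.le_mk_base hκ hec X hX⟩
    calc Cardinal.mk G = Cardinal.mk G ^ (1 : Cardinal) := by rw [Cardinal.power_one]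
      _ ≤ Cardinal.mk G ^< κ := Cardinal.le_powerlt _ (Cardinal.one_lt_aleph0.trans_le hκ)
  · intro κ lam hκ hle hpow W _ hW
    obtain ⟨G, _, hec, hG, hf, ⟨X, hX, hXb⟩, h1, h2⟩ :=
      KS6_46.KEC.exists_base hκ hle (hpl κ lam hpow) W hW
    exact ⟨G, inferInstance, hec, hG, hf,
      ⟨X, le_antisymm hX (KS6_46.KEC.le_mk_base hκ.aleph0_le hec X hXb), hXb⟩, h2⟩
  · rintro κ lam hκ hlt (h | ⟨h1, h2⟩ | ⟨h1, θ, hθ, hκθ, hθl, hcof, hμ⟩) W _ hW
    · exact KS6_46.KEC.exists_of_power_eq hκ hlt.le h W hW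
    · exact KS6_46.KEC.exists_of_cof hκ hlt h2 (KS6_46.KEC.strongLimit_power h1) W hW
    · exact KS6_46.KEC.exists_exact hκ hθ hκθ hθl (hpl κ lam h1) hcof hμ W hW
  · intro hgch κ lam hκ hlt
    have hc : ℵ₀ ≤ lam := hκ.aleph0_le.trans hlt.le
    have hfew : κ ≤ lam.ord.cof → ExistsFew κ lam := fun h W _ hW =>
      KS6_46.KEC.exists_of_cof hκ hlt h (KS6_46.KEC.gch_power hc hgch) W hW
    have hec : ExistsEC κ lam → κ ≤ lam.ord.cof := by
      rintro ⟨G, _, h1, rfl⟩
      exact KS6_46.KEC.cof_of_ec hκ.aleph0_le h1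
    have himp : ExistsFew κ lam → ExistsEC κ lam := by
      intro h
      obtain ⟨G, _, h1, h2, _⟩ := h PUnit (by
        rw [Cardinal.mk_punit]
        exact Cardinal.one_lt_aleph0.le.trans hc)
      exact ⟨G, inferInstance, h1, h2⟩
    exact ⟨⟨hec, fun h => himp (hfew h)⟩, ⟨fun h => hec (himp h), hfew⟩⟩

end Pool.Agent.Results.MP_cb6149_al.AllCardinals
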